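import Pool.Agent.Helper31.LQ.Goals

/-!
# G2: the integral `IQ Q f` does not depend on `Q`
-/

set_option autoImplicit false

open MeasureTheory Set
open scoped ENNReal Matrix
open Pool.Agent.Helper31.LQ

noncomputable section

namespace Pool.Agent.Helper64.LQ

/-! ### Measurability -/

theorem meas_det {α : Type*} [MeasurableSpace α] {k : ℕ} {M : α → Matrix (Fin k) (Fin k) ℝ}
    (h : ∀ i j, Measurable fun p => M p i j) : Measurable fun p => (M p).det := by
  simp only [Matrix.det_apply]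
  exact Finset.measurable_sum _ fun σ _ =>
    (Finset.measurable_prod _ fun i _ => h _ _).const_smul _

theorem meas_mul {α : Type*} [MeasurableSpace α] {k : ℕ} {M N : α → Matrix (Fin k) (Fin k) ℝ}
    (h : ∀ i j, Measurable fun p => M p i j) (h' : ∀ i j, Measurable fun p => N p i j) (i j : Fin k) :
    Measurable fun p => (M p * N p) i j := by
  simp only [Matrix.mul_apply]
  exact Finset.measurable_sum _ fun l _ => (h _ _).mul (h' _ _)

theorem meas_trace {α : Type*} [MeasurableSpace α] {k : ℕ} {M : α → Matrix (Fin k) (Fin k) ℝ}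
    (h : ∀ i j, Measurable fun p => M p i j) : Measurable fun p => (M p).trace := by
  simp only [Matrix.trace, Matrix.diag_apply]
  exact Finset.measurable_sum _ fun i _ => h _ _

theorem meas_inv {α : Type*} [MeasurableSpace α] {k : ℕ} {M : α → Matrix (Fin k) (Fin k) ℝ}
    (h : ∀ i j, Measurable fun p => M p i j) (i j : Fin k) :
    Measurable fun p => (M p)⁻¹ i j := by
  have e : ∀ p, (M p)⁻¹ i j = ((M p).det)⁻¹ * ((M p).updateRow j (Pi.single i 1)).det := by
    intro p
    rw [Matrix.inv_def, Ring.inverse_eq_inv', Matrix.smul_apply, Matrix.adjugate_apply, smul_eq_mul]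
  simp only [e]
  refine (meas_det h).inv.mul (meas_det fun a b => ?_)
  by_cases hab : a = j
  · subst hab
    simp only [Matrix.updateRow_self]
    exact measurable_const
  · simp only [Matrix.updateRow_ne hab]
    exact h a b

theorem meas_grm {n d : ℕ} (Q : Matrix (Fin n) (Fin n) ℝ) (i j : Fin d) :
    Measurable fun Y : Fin n → Fin d → ℝ => grm Q Y i j := by
  unfold grm
  simp only [Matrix.of_apply]
  refine Finset.measurable_sum _ fun l _ => Finset.measurable_sum _ fun m _ => ?_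
  have h : ∀ (l : Fin n) (a : Fin d), Measurable fun Y : Fin n → Fin d → ℝ => Y l a :=
    fun l a => (measurable_pi_apply a).comp (measurable_pi_apply l)
  exact ((h l i).mul_const _).mul (h m j)

theorem meas_of {d : ℕ} (i j : Fin d) :
    Measurable fun g : Fin d → Fin d → ℝ => (Matrix.of g) i j :=
  (measurable_pi_apply j).comp (measurable_pi_apply i)

/-- the first kernel -/
def Ka (n : ℕ) {d : ℕ} (Q : Matrix (Fin n) (Fin n) ℝ) (g : Fin d → Fin d → ℝ)
    (Y : Fin n → Fin d → ℝ) : ℝ :=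
  |(Matrix.of g).det| ^ (n - d) * Real.sqrt (grm Q Y).det ^ n *
    Real.exp (-(Matrix.of g * grm Q Y * (Matrix.of g)ᵀ).trace / 2)

/-- the second kernel -/
def Kb (n : ℕ) {d : ℕ} (Q : Matrix (Fin n) (Fin n) ℝ) (g : Fin d → Fin d → ℝ)
    (Y : Fin n → Fin d → ℝ) : ℝ :=
  (|(Matrix.of g).det| ^ (n + d))⁻¹ * Real.sqrt (grm Q Y).det ^ n *
    Real.exp (-((Matrix.of g)⁻¹ * grm Q Y * ((Matrix.of g)⁻¹)ᵀ).trace / 2)

theorem meas_Ka (n : ℕ) {d : ℕ} (Q : Matrix (Fin n) (Fin n) ℝ) :
    Measurable fun p : (Fin d → Fin d → ℝ) × (Fin n → Fin d → ℝ) => Ka n Q p.1 p.2 := by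
  have h1 : ∀ i j, Measurable fun p : (Fin d → Fin d → ℝ) × (Fin n → Fin d → ℝ) =>
      (Matrix.of p.1) i j := fun i j => (meas_of i j).comp measurable_fst
  have h2 : ∀ i j, Measurable fun p : (Fin d → Fin d → ℝ) × (Fin n → Fin d → ℝ) =>
      (grm Q p.2) i j := fun i j => (meas_grm Q i j).comp measurable_snd
  have h3 : ∀ i j, Measurable fun p : (Fin d → Fin d → ℝ) × (Fin n → Fin d → ℝ) =>
      ((Matrix.of p.1)ᵀ : Matrix (Fin d) (Fin d) ℝ) i j := fun i j => h1 j i
  have h4 : Measurable fun p : (Fin d → Fin d → ℝ) × (Fin n → Fin d → ℝ) =>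
      |(Matrix.of p.1).det| := by
    have := (meas_det h1).norm
    simpa [Real.norm_eq_abs] using this
  unfold Ka
  exact ((h4.pow_const _).mul ((meas_det h2).sqrt.pow_const _)).mul
    (((meas_trace (meas_mul (meas_mul h1 h2) h3)).neg.div_const 2).exp)

theorem meas_Kb (n : ℕ) {d : ℕ} (Q : Matrix (Fin n) (Fin n) ℝ) :
    Measurable fun p : (Fin d → Fin d → ℝ) × (Fin n → Fin d → ℝ) => Kb n Q p.1 p.2 := by
  have h1 : ∀ i j, Measurable fun p : (Fin d → Fin d → ℝ) × (Fin n → Fin d → ℝ) =>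
      (Matrix.of p.1) i j := fun i j => (meas_of i j).comp measurable_fst
  have h2 : ∀ i j, Measurable fun p : (Fin d → Fin d → ℝ) × (Fin n → Fin d → ℝ) =>
      (grm Q p.2) i j := fun i j => (meas_grm Q i j).comp measurable_snd
  have h5 : ∀ i j, Measurable fun p : (Fin d → Fin d → ℝ) × (Fin n → Fin d → ℝ) =>
      ((Matrix.of p.1)⁻¹ : Matrix (Fin d) (Fin d) ℝ) i j := fun i j => meas_inv h1 i j
  have h3 : ∀ i j, Measurable fun p : (Fin d → Fin d → ℝ) × (Fin n → Fin d → ℝ) =>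
      (((Matrix.of p.1)⁻¹)ᵀ : Matrix (Fin d) (Fin d) ℝ) i j := fun i j => h5 j i
  have h4 : Measurable fun p : (Fin d → Fin d → ℝ) × (Fin n → Fin d → ℝ) =>
      |(Matrix.of p.1).det| := by
    have := (meas_det h1).norm
    simpa [Real.norm_eq_abs] using this
  unfold Kb
  exact (((h4.pow_const _).inv).mul ((meas_det h2).sqrt.pow_const _)).mul
    (((meas_trace (meas_mul (meas_mul h5 h2) h3)).neg.div_const 2).exp)

/-! ### The zero set of the determinant -/

theorem ae_det_ne_zero (d : ℕ) : ∀ᵐ g : Fin d → Fin d → ℝ, (Matrix.of g).det ≠ 0 := by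
  have hm : MeasurableSet {g : Fin d → Fin d → ℝ | (Matrix.of g).det ≠ 0} := by
    have h : Measurable fun g : Fin d → Fin d → ℝ => (Matrix.of g).det := meas_det meas_of
    exact (h (measurableSet_singleton (0 : ℝ))).compl
  let one : Fin d → Fin d → ℝ := fun i j => (1 : Matrix (Fin d) (Fin d) ℝ) i j
  refine ae_mem_of_ae_add_linearMap_mem (LinearMap.toSpanSingleton ℝ (Fin d → Fin d → ℝ) one)
    (volume : Measure ℝ) volume hm fun y => ?_
  rw [ae_iff]
  refine Set.Finite.measure_zero ?_ _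
  refine (Polynomial.rootSet_finite ((-(Matrix.of y)).charpoly) ℝ).subset ?_
  intro x hx
  have h1 : (Matrix.of (y + LinearMap.toSpanSingleton ℝ (Fin d → Fin d → ℝ) one x)).det = 0 := by
    by_contra h
    exact hx h
  rw [Polynomial.mem_rootSet]
  refine ⟨(Matrix.charpoly_monic _).ne_zero, ?_⟩
  rw [Polynomial.coe_aeval_eq_eval, Matrix.eval_charpoly, ← h1]
  congr 1
  ext i j
  simp only [Matrix.sub_apply, Matrix.neg_apply, Matrix.of_apply, Pi.add_apply,
    LinearMap.toSpanSingleton_apply, Pi.smul_apply, smul_eq_mul, one, Matrix.scalar_apply,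
    Matrix.diagonal_apply, Matrix.one_apply]
  split_ifs <;> ring

/-! ### The main identity -/

/-- the first constant -/
def Ca (n d : ℕ) : ℝ≥0∞ := ∫⁻ g : Fin d → Fin d → ℝ, ENNReal.ofReal (|(Matrix.of g).det| ^ (n - d) *
    Real.exp (-(∑ i, ∑ j, g i j ^ 2) / 2))

/-- the second constant -/
def Cb (n d : ℕ) : ℝ≥0∞ := ∫⁻ h : Fin d → Fin d → ℝ,
    ENNReal.ofReal ((|(Matrix.of h).det| ^ (n + d))⁻¹ *
    Real.exp (-((Matrix.of h)⁻¹ * ((Matrix.of h)⁻¹)ᵀ).trace / 2))

theorem eta_eq_zero {n d : ℕ} (hn : n ≠ 0) (Q : Matrix (Fin n) (Fin n) ℝ) (Y : Fin n → Fin d → ℝ)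
    (h : (grm Q Y).det = 0) : eta Q Y = 0 := by
  unfold eta
  rw [h, Real.sqrt_zero, zero_pow hn, zero_mul, ENNReal.ofReal_zero]

theorem key (hA : G2A) (hB : G2B) (hL : LMUL) (hG : GRM) (n d : ℕ) (h1 : 1 ≤ d) (hd : d ≤ n)
    (f : (Fin n → Fin d → ℝ) → ℝ≥0∞) (hf : Measurable f)
    (hi : ∀ g : Matrix (Fin d) (Fin d) ℝ, g.det ≠ 0 → ∀ Y,
      (f fun l => g *ᵥ Y l) * ENNReal.ofReal (|g.det| ^ n) = f Y)
    (Q₁ Q₂ : Matrix (Fin n) (Fin n) ℝ) (h₁ : Q₁.PosDef) (h₂ : Q₂.PosDef) :
    Ca n d * IQ Q₁ f = Cb n d * IQ Q₂ f := by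
  have hn : n ≠ 0 := by omega
  have m1 : Measurable (eta (d := d) Q₁) := (hG n d Q₁ h₁ (fun _ _ => 0)).2.2.2.2.2
  have m2 : Measurable (eta (d := d) Q₂) := (hG n d Q₂ h₂ (fun _ _ => 0)).2.2.2.2.2
  calc Ca n d * IQ Q₁ f
      = ∫⁻ Y, ∫⁻ g : Fin d → Fin d → ℝ, f Y * eta Q₁ Y * ENNReal.ofReal (Ka n Q₂ g Y) := by
        unfold IQ
        have hm : Measurable fun Y => f Y * eta Q₁ Y := hf.mul m1
        rw [← lintegral_const_mul _ hm]
        refine lintegral_congr fun Y => ?_
        have hk : Measurable fun g : Fin d → Fin d → ℝ => ENNReal.ofReal (Ka n Q₂ g Y) :=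
          ((meas_Ka n Q₂).comp (measurable_id.prodMk measurable_const)).ennreal_ofReal
        rw [lintegral_const_mul _ hk]
        by_cases h0 : (grm Q₂ Y).det = 0
        · have : (grm Q₁ Y).det = 0 := (hG n d Q₂ h₂ Y).2.2.2.1 Q₁ h₁ h0
          rw [eta_eq_zero hn Q₁ Y this]
          simp
        · have := hA n d h1 hd Q₂ h₂ Y h0
          have e : (∫⁻ g : Fin d → Fin d → ℝ, ENNReal.ofReal (Ka n Q₂ g Y)) = Ca n d := this
          rw [e]
          ring
    _ = ∫⁻ g : Fin d → Fin d → ℝ, ∫⁻ Y, f Y * eta Q₁ Y * ENNReal.ofReal (Ka n Q₂ g Y) := by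
        refine lintegral_lintegral_swap (Measurable.aemeasurable ?_)
        exact ((hf.mul m1).comp measurable_fst).mul
          ((meas_Ka n Q₂).comp measurable_swap).ennreal_ofReal
    _ = ∫⁻ g : Fin d → Fin d → ℝ, ∫⁻ B, f B * eta Q₂ B * ENNReal.ofReal (Kb n Q₁ g B) := by
        refine lintegral_congr_ae ((ae_det_ne_zero d).mono fun g hg => ?_)
        show (∫⁻ Y, f Y * eta Q₁ Y * ENNReal.ofReal (Ka n Q₂ g Y)) =
          ∫⁻ B, f B * eta Q₂ B * ENNReal.ofReal (Kb n Q₁ g B)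
        rw [← hL n d (Matrix.of g) hg fun B => f B * eta Q₂ B * ENNReal.ofReal (Kb n Q₁ g B),
          ← lintegral_mul_const' _ _ ENNReal.ofReal_ne_top]
        refine lintegral_congr fun Y => ?_
        have e1 := hi (Matrix.of g) hg Y
        have g1 := (hG n d Q₁ h₁ Y).2.2.1 (Matrix.of g)
        have g2 := (hG n d Q₂ h₂ Y).2.2.1 (Matrix.of g)
        have hu : IsUnit (Matrix.of g).det := isUnit_iff_ne_zero.2 hg
        set A : Matrix (Fin d) (Fin d) ℝ := Matrix.of g with hAdef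
        have hk : eta Q₁ Y * ENNReal.ofReal (Ka n Q₂ g Y) =
            (eta Q₂ fun l => A *ᵥ Y l) *
              ENNReal.ofReal (Kb n Q₁ g fun l => A *ᵥ Y l) := by
          unfold eta Ka Kb
          rw [← hAdef, g1, g2, ← ENNReal.ofReal_mul (by positivity),
            ← ENNReal.ofReal_mul (by positivity)]
          congr 1
          have s : ∀ G : Matrix (Fin d) (Fin d) ℝ, Real.sqrt (A * G * Aᵀ).det =
              |A.det| * Real.sqrt G.det := by
            intro G
            rw [Matrix.det_mul, Matrix.det_mul, Matrix.det_transpose,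
              show A.det * G.det * A.det = A.det ^ 2 * G.det by ring,
              Real.sqrt_mul (sq_nonneg _), Real.sqrt_sq_eq_abs]
          have t : A⁻¹ * (A * grm Q₁ Y * Aᵀ) * (A⁻¹)ᵀ = grm Q₁ Y := by
            have t1 : A⁻¹ * (A * grm Q₁ Y * Aᵀ) = grm Q₁ Y * Aᵀ := by
              rw [Matrix.mul_assoc A, ← Matrix.mul_assoc A⁻¹, Matrix.nonsing_inv_mul A hu,
                Matrix.one_mul]
            rw [t1, Matrix.mul_assoc, ← Matrix.transpose_mul, Matrix.nonsing_inv_mul A hu,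
              Matrix.transpose_one, Matrix.mul_one]
          rw [s, s, t]
          have ha : |A.det| ≠ 0 := abs_ne_zero.2 hg
          have hp : |A.det| ^ n * |A.det| ^ n * (|A.det| ^ (n + d))⁻¹ = |A.det| ^ (n - d) := by
            rw [← pow_add, ← div_eq_mul_inv, div_eq_iff (pow_ne_zero _ ha), ← pow_add]
            congr 1
            omega
          rw [← hp]
          ring
        calc f Y * eta Q₁ Y * ENNReal.ofReal (Ka n Q₂ g Y)
            = ((f fun l => A *ᵥ Y l) * ENNReal.ofReal (|A.det| ^ n)) *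
                (eta Q₁ Y * ENNReal.ofReal (Ka n Q₂ g Y)) := by rw [e1]; ring
          _ = _ := by rw [hk]; ring
    _ = ∫⁻ B, ∫⁻ g : Fin d → Fin d → ℝ, f B * eta Q₂ B * ENNReal.ofReal (Kb n Q₁ g B) := by
        refine lintegral_lintegral_swap (Measurable.aemeasurable ?_)
        exact ((hf.mul m2).comp measurable_snd).mul (meas_Kb n Q₁).ennreal_ofReal
    _ = Cb n d * IQ Q₂ f := by
        unfold IQ
        have hm : Measurable fun Y => f Y * eta Q₂ Y := hf.mul m2
        rw [← lintegral_const_mul _ hm]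
        refine lintegral_congr fun B => ?_
        have hk : Measurable fun g : Fin d → Fin d → ℝ => ENNReal.ofReal (Kb n Q₁ g B) :=
          ((meas_Kb n Q₁).comp (measurable_id.prodMk measurable_const)).ennreal_ofReal
        rw [lintegral_const_mul _ hk]
        by_cases h0 : (grm Q₁ B).det = 0
        · have : (grm Q₂ B).det = 0 := (hG n d Q₁ h₁ B).2.2.2.1 Q₂ h₂ h0
          rw [eta_eq_zero hn Q₂ B this]
          simp
        · have := hB n d h1 hd Q₁ h₁ B h0
          have e : (∫⁻ g : Fin d → Fin d → ℝ, ENNReal.ofReal (Kb n Q₁ g B)) = Cb n d := this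
          rw [e]
          ring

theorem gG2 (hA : G2A) (hB : G2B) (hL : LMUL) (hG : GRM) (hC : CST) : G2 := by
  intro n d h1 hd f hf hi Q₁ Q₂ h₁ h₂
  have e1 := key hA hB hL hG n d h1 hd f hf hi Q₁ Q₂ h₁ h₂
  have e2 := key hA hB hL hG n d h1 hd f hf hi Q₂ Q₂ h₂ h₂
  have h := hC d (n - d)
  have h0 : Ca n d ≠ 0 := h.1.ne'
  have ht : Ca n d ≠ ⊤ := h.2.ne
  exact (ENNReal.mul_right_inj h0 ht).1 (e1.trans e2.symm)

end Pool.Agent.Helper64.LQ
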